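import Pool.Agent.Results.MP_bd6a20_al.BoomerangsNormal

/-!
# An infinite countable boomerang simple group

The derived subgroup `F'` of Thompson's group `F` is an infinite countable group whose only boomerang subgroups are
the trivial subgroup and `F'`.
-/

set_option autoImplicit false

namespace Pool.Agent.Results.MP_80afb3_al.DerivedThompson

open Pool.Agent.H476R3.ThF
open scoped commutatorElement Topology

section Definitions

variable {Γ : Type*} [Group Γ]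

open Classical in
/-- the indicator function of a subgroup of `Γ`, a point of `{0, 1} ^ Γ` -/
noncomputable def ind (Δ : Subgroup Γ) : Γ → Bool := fun g => decide (g ∈ Δ)

/-- the conjugate subgroup `γ Δ γ⁻¹` -/
def conj (γ : Γ) (Δ : Subgroup Γ) : Subgroup Γ := Δ.map (MulAut.conj γ).toMonoidHom

/-- `Δ` is recurrent for `γ`: every neighbourhood of `Δ` in the space of subgroups (with the topology induced from
the product topology of `{0, 1} ^ Γ`) contains `γ ^ n Δ γ ^ (-n)` for some `n ≥ 1` -/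
def Recurrent (Δ : Subgroup Γ) (γ : Γ) : Prop :=
  ∀ O ∈ 𝓝 (ind Δ), ∃ n : ℕ, 1 ≤ n ∧ ind (conj (γ ^ n) Δ) ∈ O

/-- `Δ` is a boomerang subgroup of `Γ` -/
def IsBoomerang (Δ : Subgroup Γ) : Prop := ∀ γ : Γ, Recurrent Δ γ

end Definitions

/-- the only boomerang subgroups of `Γ` are `{e}` and `Γ` -/
def BoomerangSimple (Γ : Type*) [Group Γ] : Prop :=
  ∀ Δ : Subgroup Γ, IsBoomerang Δ ↔ (Δ = ⊥ ∨ Δ = ⊤)

theorem mem_conj {Γ : Type*} [Group Γ] (Δ : Subgroup Γ) (g a : Γ) : a ∈ conj g Δ ↔ g⁻¹ * a * g ∈ Δ :=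
  MP_bd6a20_al.BoomerangsNormal.mem_map_conj Δ g a

theorem back_of {Γ : Type*} [Group Γ] {Δ : Subgroup Γ} (h : IsBoomerang Δ) (γ a : Γ) (ha : a ∈ Δ) :
    ∃ n : ℕ, 1 ≤ n ∧ (γ ^ n)⁻¹ * a * γ ^ n ∈ Δ := by
  classical
  have hO : {x : Γ → Bool | x a = true} ∈ 𝓝 (ind Δ) := by
    refine IsOpen.mem_nhds ?_ (by simp [ind, ha])
    have hcont : Continuous (fun x : Γ → Bool => x a) := continuous_apply a
    exact (isOpen_discrete ({true} : Set Bool)).preimage hcont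
  obtain ⟨n, hn, h1⟩ := h γ _ hO
  refine ⟨n, hn, ?_⟩
  rw [← mem_conj]
  simpa [ind] using h1

theorem out_of {Γ : Type*} [Group Γ] {Δ : Subgroup Γ} (h : IsBoomerang Δ) (γ a : Γ) (ha : a ∉ Δ) :
    ∃ n : ℕ, 1 ≤ n ∧ (γ ^ n)⁻¹ * a * γ ^ n ∉ Δ := by
  classical
  have hO : {x : Γ → Bool | x a = false} ∈ 𝓝 (ind Δ) := by
    refine IsOpen.mem_nhds ?_ (by simp [ind, ha])
    have hcont : Continuous (fun x : Γ → Bool => x a) := continuous_apply a
    exact (isOpen_discrete ({false} : Set Bool)).preimage hcont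
  obtain ⟨n, hn, h1⟩ := h γ _ hO
  refine ⟨n, hn, ?_⟩
  rw [← mem_conj]
  simpa [ind] using h1

theorem boomerang_of_normal {Γ : Type*} [Group Γ] (Δ : Subgroup Γ) (h : Δ.Normal) : IsBoomerang Δ := by
  intro γ O hO
  refine ⟨1, le_rfl, ?_⟩
  have : conj (γ ^ 1) Δ = Δ := by
    ext a
    rw [mem_conj]
    constructor
    · intro h1
      have := h.conj_mem _ h1 (γ ^ 1)
      simpa [mul_assoc] using this
    · intro h1
      have := h.conj_mem _ h1 (γ ^ 1)⁻¹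
      simpa using this
  rw [this]
  exact mem_of_mem_nhds hO

open MP_bd6a20_al.BoomerangsNormal (F Sup Cpt mul_app inv_app inv_app_self app_inv_self ext_app commutator_mul
  shuffle left_part right_part push contraction exists_bump exists_dyadic_UI correctors Germ k0 k1 isEnd0 isEnd1
  exists_germ0 exists_germ1 cpt_of_germ pow_app_mono pow_app_mono')

theorem comm_mem_comm (x y : F) : ⁅x, y⁆ ∈ commutator F := by
  rw [commutator_def]
  exact Subgroup.commutator_mem_commutator (Subgroup.mem_top _) (Subgroup.mem_top _)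

theorem conj_mem_comm {x : F} (hx : x ∈ commutator F) (g : F) : g * x * g⁻¹ ∈ commutator F :=
  (inferInstance : (commutator F).Normal).conj_mem x hx g

/-! ### The elements of the derived subgroup are compactly supported -/

theorem cpt_of_mem {x : F} (hx : x ∈ commutator F) : Cpt x := by
  have h : commutator F ≤
      { carrier := {x : F | Germ k0 x 0 ∧ Germ k1 x 0}
        mul_mem' := fun {a b} ha hb => by
          have h1 := ha.1.mul hb.1
          have h2 := ha.2.mul hb.2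
          rw [add_zero] at h1 h2
          exact ⟨h1, h2⟩
        one_mem' := ⟨Germ.one, Germ.one⟩
        inv_mem' := fun {a} ha => by
          have h1 := ha.1.inv isEnd0
          have h2 := ha.2.inv isEnd1
          rw [neg_zero] at h1 h2
          exact ⟨h1, h2⟩ : Subgroup F } := by
    rw [commutator_def, Subgroup.commutator_le]
    intro a _ b _
    have key : ∀ κ : UI → ℝ, MP_bd6a20_al.BoomerangsNormal.IsEnd κ → (∀ f : F, ∃ j, Germ κ f j) →
        Germ κ ⁅a, b⁆ 0 := by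
      intro κ hκ hex
      obtain ⟨i, hi⟩ := hex a
      obtain ⟨j, hj⟩ := hex b
      have h1 := ((hi.mul hj).mul (hi.inv hκ)).mul (hj.inv hκ)
      rw [commutatorElement_def]
      convert h1 using 1
      ring
    exact ⟨key k0 isEnd0 exists_germ0, key k1 isEnd1 exists_germ1⟩
  have h1 := h hx
  exact cpt_of_germ x h1.1 h1.2

/-! ### Elements of the derived subgroup -/

/-- a point `x > 0` can be pushed beyond `y < 1` -/
theorem push_far (x y : UI) (hx : 0 < x) (hy : y < 1) : ∃ h : F, y < h.1 x := by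
  have h01 : (0 : UI) < 1 := by
    change (0 : ℝ) < 1
    norm_num
  obtain ⟨B, hB, hB1, -, -⟩ := exists_bump 0 1 dyadic_zero dyadic_one h01
  obtain ⟨n, hn⟩ := push B x y (fun z hz hz' => hB1 z (hx.trans_le hz) (hz'.trans_lt hy))
  exact ⟨B ^ n, hn⟩

/-- every element of `F` agrees with an element of the derived subgroup on `[a, b]` -/
theorem approx (x : F) (a b : UI) (ha : 0 < a) (hab : a < b) (hb : b < 1) :
    ∃ y ∈ commutator F, ∀ t : UI, a ≤ t → t ≤ b → y.1 t = x.1 t := by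
  obtain ⟨b0, b1, s0, s1, hc⟩ := correctors a b ha hab hb
  obtain ⟨i, j, hij⟩ := hc x
  set x' : F := x * (b0 ^ i * b1 ^ j) with hx'
  obtain ⟨c, d, hc0, hd1, hs⟩ := hij
  obtain ⟨h, hh⟩ := push_far c b hc0 hb
  refine ⟨⁅x', h⁆, comm_mem_comm _ _, fun t ht ht' => ?_⟩
  have e : ⁅x', h⁆ = x' * (h * x'⁻¹ * h⁻¹) := by
    rw [commutatorElement_def]
    group
  have h1 : (h * x'⁻¹ * h⁻¹).1 t = t := (hs.inv.conj h) t (Or.inl (ht'.trans hh.le))
  rw [e, mul_app, h1, hx', mul_app, mul_app, (s1.zpow j) t (Or.inl ht'), (s0.zpow i) t (Or.inr ht)]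

/-- an element of the derived subgroup supported in `[u, v]`, moving a point to the right -/
theorem exists_mover (u v : UI) (huv : u < v) :
    ∃ γ ∈ commutator F, Sup γ u v ∧ ∃ q : UI, u < q ∧ q < v ∧ q < γ.1 q := by
  obtain ⟨w, dw, huw, hwv⟩ := exists_dyadic_UI huv
  obtain ⟨u1, du1, huu1, hu1w⟩ := exists_dyadic_UI huw
  obtain ⟨u0, du0, huu0, hu01⟩ := exists_dyadic_UI huu1
  obtain ⟨v0, dv0, hwv0, hv0v⟩ := exists_dyadic_UI hwv
  obtain ⟨γ0, s0, hm0, -, -⟩ := exists_bump u1 w du1 dw hu1w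
  obtain ⟨B, sB, hmB, -, -⟩ := exists_bump u0 v0 du0 dv0 (hu01.trans (hu1w.trans hwv0))
  obtain ⟨n, hn⟩ := push B u1 w (fun z hz hz' => hmB z (hu01.trans_le hz) (hz'.trans_lt hwv0))
  obtain ⟨q, -, hu1q, hqw⟩ := exists_dyadic_UI hu1w
  have e : ⁅γ0, B ^ n⁆ = γ0 * (B ^ n * γ0⁻¹ * (B ^ n)⁻¹) := by
    rw [commutatorElement_def]
    group
  have s1 : Sup (B ^ n * γ0⁻¹ * (B ^ n)⁻¹) ((B ^ n).1 u1) ((B ^ n).1 w) := s0.inv.conj (B ^ n)
  have hv0 : (B ^ n).1 v0 = v0 := (sB.pow n) v0 (Or.inr le_rfl)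
  have h2 : (B ^ n).1 w ≤ v := by
    calc (B ^ n).1 w ≤ (B ^ n).1 v0 := (B ^ n).1.monotone hwv0.le
      _ = v0 := hv0
      _ ≤ v := hv0v.le
  refine ⟨⁅γ0, B ^ n⁆, comm_mem_comm _ _, ?_, q, huu1.trans hu1q, hqw.trans hwv, ?_⟩
  · rw [e]
    exact (s0.mono huu1.le hwv.le).mul (s1.mono (huw.le.trans hn.le) h2)
  · rw [e, mul_app, s1 q (Or.inl (hqw.le.trans hn.le))]
    exact hm0 q hu1q hqw

/-! ### Boomerang subgroups of the derived subgroup -/

/-- the two recurrence properties of a boomerang subgroup of the derived subgroup -/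
structure Boom (Δ : Subgroup F) : Prop where
  back : ∀ γ ∈ commutator F, ∀ a ∈ Δ, ∃ n : ℕ, 1 ≤ n ∧ (γ ^ n)⁻¹ * a * γ ^ n ∈ Δ
  out : ∀ γ ∈ commutator F, ∀ b ∈ commutator F, b ∉ Δ → ∃ n : ℕ, 1 ≤ n ∧ (γ ^ n)⁻¹ * b * γ ^ n ∉ Δ

variable {Δ : Subgroup F} {f g h : F} {a b c d : UI}

theorem pow_mem (hΔ : Boom Δ) {δ : F} (hδ : δ ∈ Δ) {h : F} (hh : h ∈ commutator F) :
    ∃ n : ℕ, 1 ≤ n ∧ h⁻¹ ^ n * (δ * h * δ⁻¹) ^ n ∈ Δ := by
  obtain ⟨n, hn, h2⟩ := hΔ.back h hh δ hδ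
  refine ⟨n, hn, ?_⟩
  have h3 := Δ.mul_mem h2 (Δ.inv_mem hδ)
  have h4 : (δ * h * δ⁻¹) ^ n = δ * h ^ n * δ⁻¹ := conj_pow
  rw [h4, inv_pow]
  simpa [mul_assoc] using h3

theorem pow_mem_mul (hΔ : Boom Δ) {δ : F} (hδ : δ ∈ Δ) {h : F} (hh : h ∈ commutator F)
    (hc : Commute h (δ * h * δ⁻¹)) : ∃ n : ℕ, 1 ≤ n ∧
      ∀ k : ℕ, h⁻¹ ^ (n * k) * (δ * h * δ⁻¹) ^ (n * k) ∈ Δ := by
  obtain ⟨n, hn, h1⟩ := pow_mem hΔ hδ hh
  refine ⟨n, hn, fun k => ?_⟩
  have h2 : Commute (h⁻¹ ^ n) ((δ * h * δ⁻¹) ^ n) := (hc.inv_left).pow_pow n n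
  rw [pow_mul, pow_mul, ← h2.mul_pow]
  exact Δ.pow_mem h1 k

/-- the combination of two directions -/
theorem combine (hΔ : Boom Δ) {δ : F} (hδ : δ ∈ Δ) {γ h : F} (hγ : γ ∈ commutator F) (hh : h ∈ commutator F)
    (h1 : Commute γ (δ * γ * δ⁻¹)) (h2 : Commute h (δ * h * δ⁻¹))
    (h3 : Commute h (δ * γ * δ⁻¹)) :
    ∃ N : ℕ, 1 ≤ N ∧ (γ⁻¹ ^ N * h ^ N) * ((δ * γ * δ⁻¹) ^ N * ((δ * h * δ⁻¹)⁻¹) ^ N) ∈ Δ := by
  obtain ⟨n, hn, h4⟩ := pow_mem_mul hΔ hδ hγ h1
  obtain ⟨m, hm, h5⟩ := pow_mem_mul hΔ hδ hh h2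
  refine ⟨n * m, Nat.mul_pos hn hm, ?_⟩
  have h6 := h4 m
  have h7 := h5 n
  rw [Nat.mul_comm m n] at h7
  have h8 := Δ.mul_mem h6 (Δ.inv_mem h7)
  have c1 : Commute (h ^ (n * m)) ((δ * γ * δ⁻¹) ^ (n * m)) := h3.pow_pow _ _
  have c2 : Commute (h ^ (n * m)) (((δ * h * δ⁻¹)⁻¹) ^ (n * m)) := (h2.inv_right).pow_pow _ _
  have e := shuffle (A := γ⁻¹ ^ (n * m)) c1 c2
  rw [← e]
  have e1 : (h ^ (n * m))⁻¹ = h⁻¹ ^ (n * m) := (inv_pow _ _).symm
  have e2 : (((δ * h * δ⁻¹)⁻¹) ^ (n * m))⁻¹ = (δ * h * δ⁻¹) ^ (n * m) := by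
    rw [inv_pow, inv_inv]
  rw [e1, e2]
  exact h8

/-- all commutators of elements of `F'` supported in a certain interval are in `Δ` -/
theorem local_comm (hΔ : Boom Δ) {δ γ : F} (hδ : δ ∈ Δ) (hγF : γ ∈ commutator F) {u v p q : UI}
    (hv : v ≤ δ.1 u) (hγ : Sup γ u v) (huv : u ≤ v) (hup : u ≤ p) (hpq : p ≤ q) (hqv : q ≤ v)
    (hpq' : (γ⁻¹).1 q = p) (f g : F) (hfF : f ∈ commutator F) (hgF : g ∈ commutator F)
    (hf : Sup f p q) (hg : Sup g p q) : ⁅f, g⁆ ∈ Δ := by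
  -- elements supported in `[u, v]` commute with the conjugates
  have hcomm : ∀ x y : F, Sup x u v → Sup y u v → Commute x (δ * y * δ⁻¹) := by
    intro x y hx hy
    exact hx.comm (hy.conj δ) hv
  have hv' : (δ⁻¹).1 v ≤ u := by
    rw [inv_app]
    exact (δ.1.symm_apply_le).2 hv
  have hcomm' : ∀ x y : F, Sup x u v → Sup y u v → Commute x (δ⁻¹ * y * δ⁻¹⁻¹) := by
    intro x y hx hy
    exact ((hy.conj δ⁻¹).comm hx hv').symm
  have hfI : Sup f u v := hf.mono hup hqv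
  have hgI : Sup g u v := hg.mono hup hqv
  obtain ⟨N, hN, h1⟩ := combine hΔ hδ (γ := γ) (h := γ * f) hγF (mul_mem hγF hfF) (hcomm _ _ hγ hγ)
    (hcomm _ _ (hγ.mul hfI) (hγ.mul hfI)) (hcomm _ _ (hγ.mul hfI) hγ)
  obtain ⟨N', hN', h2⟩ := combine hΔ (Δ.inv_mem hδ) (γ := γ⁻¹) (h := γ⁻¹ * g) (inv_mem hγF)
    (mul_mem (inv_mem hγF) hgF) (hcomm' _ _ hγ.inv hγ.inv)
    (hcomm' _ _ (hγ.inv.mul hgI) (hγ.inv.mul hgI)) (hcomm' _ _ (hγ.inv.mul hgI) hγ.inv)
  obtain ⟨N, rfl⟩ : ∃ k, N = k + 1 := ⟨N - 1, by omega⟩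
  obtain ⟨N', rfl⟩ : ∃ k, N' = k + 1 := ⟨N' - 1, by omega⟩
  have hγu : (γ⁻¹).1 u = u := hγ.inv u (Or.inl le_rfl)
  have hγv : (γ⁻¹⁻¹).1 v = v := hγ.inv.inv v (Or.inr le_rfl)
  have hqp : (γ⁻¹⁻¹).1 p = q := by rw [← hpq', inv_app_self]
  obtain ⟨L, hL, e1⟩ := left_part hup hpq hγu hpq' hf N
  obtain ⟨L', hL', e2⟩ := right_part hqv hpq hγv hqp hg N'
  rw [e1] at h1
  rw [e2] at h2
  set W := (δ * γ * δ⁻¹) ^ (N + 1) * ((δ * (γ * f) * δ⁻¹)⁻¹) ^ (N + 1) with hW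
  set W' := (δ⁻¹ * γ⁻¹ * δ⁻¹⁻¹) ^ (N' + 1) * ((δ⁻¹ * (γ⁻¹ * g) * δ⁻¹⁻¹)⁻¹) ^ (N' + 1) with hW'
  have sW : Sup W (δ.1 u) (δ.1 v) :=
    ((hγ.conj δ).pow _).mul (((hγ.mul hfI).conj δ).inv.pow _)
  have sW' : Sup W' ((δ⁻¹).1 u) ((δ⁻¹).1 v) :=
    ((hγ.inv.conj δ⁻¹).pow _).mul (((hγ.inv.mul hgI).conj δ⁻¹).inv.pow _)
  -- `L`, `W` commute with `L'`, `g`, `W'`
  have c1 : Commute L L' := hL.comm hL' hpq
  have c2 : Commute L g := hL.comm hg le_rfl
  have c3 : Commute L W' := (sW'.comm hL hv').symm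
  have c4 : Commute W L' := (hL'.comm sW hv).symm
  have c5 : Commute W g := (hgI.comm sW hv).symm
  have c6 : Commute W W' := (sW'.comm sW (hv'.trans (huv.trans hv))).symm
  have c7 : Commute L' f := (hf.comm hL' le_rfl).symm
  have c8 : Commute W' f := sW'.comm hfI hv'
  have c9 : Commute L f := hL.comm hf le_rfl
  have c10 : Commute L' g := (hg.comm hL' le_rfl).symm
  have h3 : L * f * W = f * (L * W) := by rw [c9.eq, mul_assoc]
  have h4 : L' * g * W' = g * (L' * W') := by rw [c10.eq, mul_assoc]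
  rw [h3] at h1
  rw [h4] at h2
  have h5 : ⁅f * (L * W), g * (L' * W')⁆ = ⁅f, g⁆ := by
    apply commutator_mul
    · exact (c2.mul_left c5).mul_right ((c1.mul_right c3).mul_left (c4.mul_right c6))
    · exact c7.mul_left c8
  rw [← h5, commutatorElement_def]
  exact Δ.mul_mem (Δ.mul_mem (Δ.mul_mem h1 h2) (Δ.inv_mem h1)) (Δ.inv_mem h2)

/-- the closure principle -/
theorem mem_of_forall (hΔ : Boom Δ) (b γ : F) (hb : b ∈ commutator F) (hγ : γ ∈ commutator F)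
    (h : ∀ n : ℕ, 1 ≤ n → γ ^ n * b * (γ ^ n)⁻¹ ∈ Δ) : b ∈ Δ := by
  by_contra hbΔ
  obtain ⟨n, hn, h1⟩ := hΔ.out γ⁻¹ (inv_mem hγ) b hb hbΔ
  apply h1
  have := h n hn
  simpa [inv_pow] using this

/-- from local commutators to all -/
theorem global_comm (hΔ : Boom Δ) {p q a b : UI} (γ : F) (hγ : γ ∈ commutator F) (hap : a ≤ p) (hqb : q ≤ b)
    (h1 : p ≤ γ.1 a) (h2 : γ.1 b ≤ q)
    (hloc : ∀ f g : F, f ∈ commutator F → g ∈ commutator F → Sup f p q → Sup g p q → ⁅f, g⁆ ∈ Δ)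
    (f g : F) (hfF : f ∈ commutator F) (hgF : g ∈ commutator F) (hf : Sup f a b) (hg : Sup g a b) :
    ⁅f, g⁆ ∈ Δ := by
  apply mem_of_forall hΔ _ γ (comm_mem_comm _ _) hγ
  intro n hn
  have e : γ ^ n * ⁅f, g⁆ * (γ ^ n)⁻¹ = ⁅γ ^ n * f * (γ ^ n)⁻¹, γ ^ n * g * (γ ^ n)⁻¹⁆ := by
    rw [commutatorElement_def, commutatorElement_def]
    group
  obtain ⟨n, rfl⟩ : ∃ k, n = k + 1 := ⟨n - 1, by omega⟩
  have ha : p ≤ (γ ^ (n + 1)).1 a := by
    rw [pow_succ, mul_app]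
    calc p ≤ γ.1 a := h1
      _ ≤ (γ ^ n).1 (γ.1 a) := by
        apply pow_app_mono'
        exact γ.1.monotone (hap.trans h1)
  have hb : (γ ^ (n + 1)).1 b ≤ q := by
    rw [pow_succ, mul_app]
    calc (γ ^ n).1 (γ.1 b) ≤ γ.1 b := by
          apply pow_app_mono
          exact γ.1.monotone (h2.trans hqb)
      _ ≤ q := h2
  rw [e]
  exact hloc _ _ (conj_mem_comm hfF _) (conj_mem_comm hgF _) ((hf.conj _).mono ha hb) ((hg.conj _).mono ha hb)

/-- all commutators of elements of the derived subgroup lie in a nontrivial boomerang subgroup -/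
theorem all_comm (hΔ : Boom Δ) (hne : Δ ≠ ⊥) (f g : F) (hfF : f ∈ commutator F)
    (hgF : g ∈ commutator F) : ⁅f, g⁆ ∈ Δ := by
  -- an element of `Δ` moving a point to the right
  obtain ⟨δ, hδ, x, hx⟩ : ∃ δ ∈ Δ, ∃ x : UI, x < δ.1 x := by
    obtain ⟨⟨δ, hδ⟩, h0⟩ := Δ.ne_bot_iff_exists_ne_one.1 hne
    have h1 : δ ≠ 1 := fun e => h0 (Subtype.ext e)
    have h2 : ∃ x, δ.1 x ≠ x := by
      by_contra hcon
      push Not at hcon
      exact h1 (ext_app hcon)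
    obtain ⟨x, hx⟩ := h2
    rcases lt_or_gt_of_ne hx with h | h
    · refine ⟨δ⁻¹, Δ.inv_mem hδ, x, ?_⟩
      rw [inv_app]
      exact (δ.1.lt_symm_apply).2 h
    · exact ⟨δ, hδ, x, h⟩
  obtain ⟨u, du, hxu, hu⟩ := exists_dyadic_UI hx
  obtain ⟨v, dv, huv, hv⟩ := exists_dyadic_UI hu
  have hvδ : v ≤ δ.1 u := hv.le.trans (δ.1.monotone hxu.le)
  obtain ⟨γ, hγF, hγ, q, huq, hqv, hmove⟩ := exists_mover u v huv
  set p : UI := (γ⁻¹).1 q with hp
  have hup : u ≤ p := by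
    have h1 : (γ⁻¹).1 u = u := hγ.inv u (Or.inl le_rfl)
    rw [← h1]
    exact (γ⁻¹).1.monotone huq.le
  have hpq : p < q := by
    rw [hp, inv_app]
    exact (γ.1.symm_apply_lt).2 hmove
  have hloc : ∀ f g : F, f ∈ commutator F → g ∈ commutator F → Sup f p q → Sup g p q → ⁅f, g⁆ ∈ Δ :=
    fun f g hfF hgF hf hg =>
      local_comm hΔ hδ hγF hvδ hγ huv.le hup hpq.le hqv.le hp.symm f g hfF hgF hf hg
  obtain ⟨a1, b1, ha1, hb1, hf1⟩ := cpt_of_mem hfF
  obtain ⟨a2, b2, ha2, hb2, hf2⟩ := cpt_of_mem hgF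
  have hp0 : 0 < p := lt_of_lt_of_le (lt_of_le_of_lt (Subtype.coe_le_coe.1 x.2.1) hxu) hup
  have hq1 : q < 1 := lt_of_lt_of_le hqv (Subtype.coe_le_coe.1 v.2.2)
  have ha0 : 0 < min (min a1 a2) p := lt_min (lt_min ha1 ha2) hp0
  have hb0 : max (max b1 b2) q < 1 := max_lt (max_lt hb1 hb2) hq1
  have hab0 : min (min a1 a2) p < max (max b1 b2) q :=
    (min_le_right _ _).trans_lt (hpq.trans_le (le_max_right _ _))
  obtain ⟨c0, hc1, hc2⟩ := contraction _ _ p q ha0 hb0 hpq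
  obtain ⟨c, hcF, hc⟩ := approx c0 _ _ ha0 hab0 hb0
  apply global_comm hΔ c hcF (min_le_right _ _) (le_max_right _ _) (by rw [hc _ le_rfl hab0.le]; exact hc1)
    (by rw [hc _ hab0.le le_rfl]; exact hc2) hloc f g hfF hgF
  · exact hf1.mono ((min_le_left _ _).trans (min_le_left _ _))
      ((le_max_left _ _).trans (le_max_left _ _))
  · exact hf2.mono ((min_le_left _ _).trans (min_le_right _ _))
      ((le_max_right _ _).trans (le_max_left _ _))

/-! ### The derived subgroup is perfect -/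

/-- commutators of compactly supported elements are commutators of elements of `F'` -/
theorem cpt_comm (hf : Cpt f) (hg : Cpt g) :
    ∃ f' ∈ commutator F, ∃ g' ∈ commutator F, ⁅f, g⁆ = ⁅f', g'⁆ := by
  obtain ⟨a1, b1, ha1, hb1, hf1⟩ := hf
  obtain ⟨a2, b2, ha2, hb2, hg1⟩ := hg
  have h01 : (0 : UI) < 1 := by
    change (0 : ℝ) < 1
    norm_num
  set a := min a1 a2 with ha
  set b := max b1 b2 with hb
  have ha0 : 0 < a := lt_min ha1 ha2
  have hb0 : b < 1 := max_lt hb1 hb2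
  have sf : Sup f a b := hf1.mono (min_le_left _ _) (le_max_left _ _)
  have sg : Sup g a b := hg1.mono (min_le_right _ _) (le_max_right _ _)
  obtain ⟨h, hh⟩ := push_far a b ha0 hb0
  have hhb : h.1 b < 1 := by
    have h1 : h.1 1 = 1 := map_one' h.1
    rw [← h1]
    exact (OrderIso.lt_iff_lt _).2 hb0
  obtain ⟨h', hh'⟩ := push_far a (max (h.1 b) b) ha0 (max_lt hhb hb0)
  have e : ⁅f, h⁆ = f * (h * f⁻¹ * h⁻¹) := by
    rw [commutatorElement_def]
    group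
  have e' : ⁅g, h'⁆ = g * (h' * g⁻¹ * h'⁻¹) := by
    rw [commutatorElement_def]
    group
  have sX : Sup (h * f⁻¹ * h⁻¹) (h.1 a) (h.1 b) := sf.inv.conj h
  have sZ : Sup (h' * g⁻¹ * h'⁻¹) (h'.1 a) (h'.1 b) := sg.inv.conj h'
  refine ⟨⁅f, h⁆, comm_mem_comm _ _, ⁅g, h'⁆, comm_mem_comm _ _, ?_⟩
  rw [e, e']
  refine (commutator_mul ?_ ?_).symm
  · exact ((sg.comm sX hh.le).symm).mul_right (sX.comm sZ ((le_max_left _ _).trans hh'.le))
  · exact (sf.comm sZ ((le_max_right _ _).trans hh'.le)).symm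

theorem comm_cpt {Δ : Subgroup F} (hall : ∀ f g : F, Cpt f → Cpt g → ⁅f, g⁆ ∈ Δ) (x u : F) (hu : Cpt u) :
    ⁅x, u⁆ ∈ Δ := by
  obtain ⟨a, b, ha, hb, hs⟩ := hu
  obtain ⟨a', -, ha', haa⟩ := exists_dyadic_UI (show (0 : UI) < min a 1 from lt_min ha (by
    change (0 : ℝ) < 1
    norm_num))
  have ha1 : a' < 1 := haa.trans_le (min_le_right _ _)
  obtain ⟨b', -, hb', hbb⟩ := exists_dyadic_UI (max_lt hb ha1)
  obtain ⟨b0, b1, s0, s1, h⟩ := correctors a' b' ha' ((le_max_right _ _).trans_lt hb') hbb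
  obtain ⟨i, j, hij⟩ := h x
  have c0 : Commute (b0 ^ i) u := by
    exact ((s0.mono le_rfl (haa.le.trans (min_le_left _ _))).zpow i).comm hs le_rfl
  have c1 : Commute (b1 ^ j) u := by
    exact (hs.comm (s1.zpow j) ((le_max_left _ _).trans hb'.le)).symm
  have c : Commute (b0 ^ i * b1 ^ j) u := c0.mul_left c1
  have h1 := hall _ u hij ⟨a, b, ha, hb, hs⟩
  have h2 : ⁅x * (b0 ^ i * b1 ^ j), u⁆ = ⁅x, u⁆ := by
    have := commutator_mul (f := x) (g := u) (X := b0 ^ i * b1 ^ j) (Z := 1) (by simpa using c)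
      (Commute.one_left _)
    simpa using this
  rwa [h2] at h1

theorem comm_mem {Δ : Subgroup F} (hall : ∀ f g : F, Cpt f → Cpt g → ⁅f, g⁆ ∈ Δ) (x y : F) : ⁅x, y⁆ ∈ Δ := by
  have h01 : (0 : UI) < 1 := by
    change (0 : ℝ) < 1
    norm_num
  obtain ⟨a, -, ha, ha1⟩ := exists_dyadic_UI h01
  obtain ⟨b, -, hb, hb1⟩ := exists_dyadic_UI ha1
  obtain ⟨b0, b1, s0, s1, h⟩ := correctors a b ha hb hb1
  obtain ⟨i, j, hx⟩ := h x
  obtain ⟨k, l, hy⟩ := h y
  have c01 : Commute b0 b1 := s0.comm s1 hb.le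
  set vx := (b0 ^ i * b1 ^ j)⁻¹ with hvx
  set vy := (b0 ^ k * b1 ^ l)⁻¹ with hvy
  have cv : Commute vx vy := by
    have c1 : Commute (b0 ^ i * b1 ^ j) (b0 ^ k * b1 ^ l) := by
      apply Commute.mul_left
      · exact ((Commute.refl b0).zpow_zpow i k).mul_right (c01.zpow_zpow i l)
      · exact ((c01.symm).zpow_zpow j k).mul_right ((Commute.refl b1).zpow_zpow j l)
    exact c1.inv_inv
  set ux := x * (b0 ^ i * b1 ^ j) with hux
  set uy := y * (b0 ^ k * b1 ^ l) with huy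
  have ex : x = ux * vx := by rw [hux, hvx]; group
  have ey : y = uy * vy := by rw [huy, hvy]; group
  have h1 : ⁅x, y⁆ = ⁅ux * vx * ux⁻¹, ux * uy * ux⁻¹⁆ * ⁅y, ux⁆⁻¹ := by
    have h2 : ⁅ux * vx * ux⁻¹, ux * uy * ux⁻¹⁆ = ux * ⁅vx, uy⁆ * ux⁻¹ := by
      simp only [commutatorElement_def]; group
    have h3 : ⁅vx, uy⁆ = ⁅vx, y⁆ := by
      rw [ey]
      have := commutator_mul (f := vx) (g := uy) (X := 1) (Z := vy) (Commute.one_left _) cv.symm
      simpa using this.symm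
    rw [h2, h3]
    nth_rewrite 1 [ex]
    simp only [commutatorElement_def]
    group
  rw [h1]
  apply Δ.mul_mem
  · exact comm_cpt hall _ _ (hy.conj ux)
  · exact Δ.inv_mem (comm_cpt hall _ _ hx)

/-! ### Countability -/

theorem countable_dyadic : Set.Countable {x : UI | Dyadic x} := by
  have h1 : Set.Countable {x : ℝ | Dyadic x} := by
    have : {x : ℝ | Dyadic x} = Set.range (fun p : ℤ × ℕ => (p.1 : ℝ) / 2 ^ p.2) := by
      ext x
      constructor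
      · rintro ⟨m, k, rfl⟩
        exact ⟨(m, k), rfl⟩
      · rintro ⟨⟨m, k⟩, rfl⟩
        exact ⟨m, k, rfl⟩
    rw [this]
    exact Set.countable_range _
  exact h1.preimage Subtype.coe_injective

/-- the break points, with the end points -/
def pts (B : Finset ℝ) : Set UI := {x | x = 0 ∨ x = 1 ∨ (x : ℝ) ∈ B}

theorem pts_finite (B : Finset ℝ) : (pts B).Finite := by
  have h1 : {x : UI | (x : ℝ) ∈ B}.Finite := Set.Finite.preimage (Subtype.coe_injective.injOn) B.finite_toSet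
  have h2 : pts B = {0} ∪ ({1} ∪ {x : UI | (x : ℝ) ∈ B}) := by
    ext x
    simp only [pts, Set.mem_setOf_eq, Set.mem_union, Set.mem_singleton_iff]
  rw [h2]
  exact (Set.finite_singleton 0).union ((Set.finite_singleton 1).union h1)

/-- `f` is affine between consecutive points of `B` -/
def Brk (f : F) (B : Finset ℝ) : Prop :=
  (∀ b ∈ B, Dyadic b) ∧ ∀ c d : UI, c < d → (∀ b ∈ B, ¬ ((c : ℝ) < b ∧ b < (d : ℝ))) →
    ∃ k : ℤ, ∀ x : UI, c ≤ x → x ≤ d → (f.1 x : ℝ) = f.1 c + 2 ^ k * ((x : ℝ) - c)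

theorem exists_brk (f : F) : ∃ B, Brk f B := f.2

theorem eq_of_pts {f g : F} {B C : Finset ℝ} (hf : Brk f B) (hg : Brk g C) (hBC : pts B = pts C)
    (h : ∀ x ∈ pts B, f.1 x = g.1 x) : f = g := by
  apply ext_app
  intro t
  obtain ⟨c, ⟨hc1, hc2⟩, hc3⟩ := Set.exists_max_image ({x | x ∈ pts B ∧ x ≤ t}) id
    ((pts_finite B).subset fun x hx => hx.1) ⟨0, Or.inl rfl, Subtype.coe_le_coe.1 t.2.1⟩
  obtain ⟨d, ⟨hd1, hd2⟩, hd3⟩ := Set.exists_min_image ({x | x ∈ pts B ∧ t ≤ x}) id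
    ((pts_finite B).subset fun x hx => hx.1) ⟨1, Or.inr (Or.inl rfl), Subtype.coe_le_coe.1 t.2.2⟩
  simp only [id, Set.mem_setOf_eq] at hc3 hd3
  rcases (hc2.trans hd2).eq_or_lt with hcd | hcd
  · have : t = c := le_antisymm (hd2.trans_eq hcd.symm) hc2
    rw [this]
    exact h c hc1
  · have hno : ∀ x ∈ pts B, ¬ (c < x ∧ x < d) := by
      intro x hx ⟨h1, h2⟩
      rcases le_total x t with h3 | h3
      · exact absurd (hc3 x ⟨hx, h3⟩) (not_le.2 h1)
      · exact absurd (hd3 x ⟨hx, h3⟩) (not_le.2 h2)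
    have key : ∀ A : Finset ℝ, pts A = pts B → ∀ b ∈ A, ¬ ((c : ℝ) < b ∧ b < (d : ℝ)) := by
      intro A hA b hb ⟨h1, h2⟩
      have hb' : b ∈ Set.Icc (0 : ℝ) 1 := ⟨c.2.1.trans h1.le, h2.le.trans d.2.2⟩
      refine hno ⟨b, hb'⟩ ?_ ⟨h1, h2⟩
      rw [← hA]
      exact Or.inr (Or.inr hb)
    obtain ⟨k, hk⟩ := hf.2 c d hcd (key B rfl)
    obtain ⟨l, hl⟩ := hg.2 c d hcd (key C hBC.symm)
    have e1 := hk d hcd.le le_rfl
    have e2 := hl d hcd.le le_rfl
    have e3 : (f.1 c : ℝ) = g.1 c := by rw [h c hc1]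
    have e4 : (f.1 d : ℝ) = g.1 d := by rw [h d hd1]
    have hpos : (0 : ℝ) < (d : ℝ) - c := sub_pos.2 hcd
    have e5 : (2 : ℝ) ^ k * ((d : ℝ) - c) = 2 ^ l * ((d : ℝ) - c) := by linarith
    have e6 : (2 : ℝ) ^ k = 2 ^ l := mul_right_cancel₀ hpos.ne' e5
    apply Subtype.ext
    rw [hk t hc2 hd2, hl t hc2 hd2, e3, e6]

theorem countable_F : Countable F := by
  choose B hB using exists_brk
  let S : F → Set (UI × UI) := fun f => {z | z.1 ∈ pts (B f) ∧ z.2 = f.1 z.1}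
  have hpd : ∀ f : F, ∀ x ∈ pts (B f), Dyadic x := by
    intro f x hx
    rcases hx with rfl | rfl | hx
    · exact dyadic_zero
    · exact dyadic_one
    · exact (hB f).1 _ hx
  have hS : ∀ f, (S f).Finite ∧ S f ⊆ {x : UI | Dyadic x} ×ˢ {x : UI | Dyadic x} := by
    intro f
    constructor
    · have : S f = (fun x : UI => (x, f.1 x)) '' pts (B f) := by
        ext ⟨x, y⟩
        constructor
        · rintro ⟨h1, h2⟩
          exact ⟨x, h1, by rw [show y = f.1 x from h2]⟩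
        · rintro ⟨x', h1, h2⟩
          rw [Prod.mk.injEq] at h2
          obtain ⟨rfl, rfl⟩ := h2
          exact ⟨h1, rfl⟩
      rw [this]
      exact (pts_finite _).image _
    · rintro ⟨x, y⟩ ⟨h1, h2⟩
      refine ⟨hpd f x h1, ?_⟩
      have h3 : y = f.1 x := h2
      change Dyadic (y : ℝ)
      rw [h3]
      exact IsPL.map_dyadic f.2 x (hpd f x h1)
  have hinj : Function.Injective S := by
    intro f g hfg
    have hp : pts (B f) = pts (B g) := by
      ext x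
      constructor
      · intro hx
        have : (x, f.1 x) ∈ S g := by
          rw [← hfg]
          exact ⟨hx, rfl⟩
        exact this.1
      · intro hx
        have : (x, g.1 x) ∈ S f := by
          rw [hfg]
          exact ⟨hx, rfl⟩
        exact this.1
    refine eq_of_pts (hB f) (hB g) hp fun x hx => ?_
    have : (x, f.1 x) ∈ S g := by
      rw [← hfg]
      exact ⟨hx, rfl⟩
    exact this.2
  have hc : Set.Countable {t : Set (UI × UI) | t.Finite ∧ t ⊆ {x : UI | Dyadic x} ×ˢ {x : UI | Dyadic x}} :=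
    Set.countable_setOf_finite_subset (countable_dyadic.prod countable_dyadic)
  have h1 : Set.Countable (Set.range S) := hc.mono (by
    rintro _ ⟨f, rfl⟩
    exact hS f)
  have h2 : Set.Countable (Set.univ : Set F) := by
    have := h1.preimage hinj
    rwa [Set.preimage_range] at this
  exact Set.countable_univ_iff.1 h2

theorem infinite_comm : Infinite (commutator F) := by
  have h01 : (0 : UI) < 1 := by
    change (0 : ℝ) < 1
    norm_num
  obtain ⟨γ, hγ, -, q, -, -, hq⟩ := exists_mover 0 1 h01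
  have hmono : StrictMono (fun n : ℕ => (γ ^ n).1 q) := by
    refine strictMono_nat_of_lt_succ fun n => ?_
    rw [pow_succ, mul_app]
    exact (OrderIso.lt_iff_lt _).2 hq
  refine Infinite.of_injective (fun n : ℕ => (⟨γ ^ n, _root_.pow_mem hγ n⟩ : commutator F)) ?_
  intro n m hnm
  apply hmono.injective
  have h1 : γ ^ n = γ ^ m := congrArg Subtype.val hnm
  simp only [h1]

/-- **Theorem.** The derived subgroup of Thompson's group `F` is an infinite countable boomerang simple group: its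
only boomerang subgroups are the trivial subgroup and the whole group. -/
theorem result : Infinite (commutator ThompsonF) ∧ Countable (commutator ThompsonF) ∧
    BoomerangSimple (commutator ThompsonF) := by
  refine ⟨infinite_comm, ?_, ?_⟩
  · have := countable_F
    infer_instance
  intro Δ
  constructor
  swap
  · rintro (rfl | rfl)
    · exact boomerang_of_normal _ inferInstance
    · exact boomerang_of_normal _ inferInstance
  intro hΔ
  by_cases hne : Δ = ⊥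
  · exact Or.inl hne
  right
  have hmem : ∀ x : F, x ∈ Δ.map (commutator F).subtype ↔ ∃ hx : x ∈ commutator F, (⟨x, hx⟩ : commutator F) ∈ Δ := by
    intro x
    rw [Subgroup.mem_map]
    constructor
    · rintro ⟨y, hy, rfl⟩
      exact ⟨y.2, hy⟩
    · rintro ⟨hx, h⟩
      exact ⟨_, h, rfl⟩
  have hB : Boom (Δ.map (commutator F).subtype) := by
    constructor
    · intro γ hγ a ha
      obtain ⟨haF, ha⟩ := (hmem a).1 ha
      obtain ⟨n, hn, h1⟩ := back_of hΔ ⟨γ, hγ⟩ ⟨a, haF⟩ ha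
      refine ⟨n, hn, ?_⟩
      exact ⟨_, h1, rfl⟩
    · intro γ hγ b hb hbΔ
      have hb' : (⟨b, hb⟩ : commutator F) ∉ Δ := fun h => hbΔ ((hmem b).2 ⟨hb, h⟩)
      obtain ⟨n, hn, h1⟩ := out_of hΔ ⟨γ, hγ⟩ ⟨b, hb⟩ hb'
      refine ⟨n, hn, fun h2 => h1 ?_⟩
      obtain ⟨hx, h3⟩ := (hmem _).1 h2
      exact h3
  have hne' : Δ.map (commutator F).subtype ≠ ⊥ := by
    intro h
    apply hne
    rw [Subgroup.map_eq_bot_iff_of_injective _ (Subgroup.subtype_injective _)] at h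
    exact h
  have hall : ∀ f g : F, Cpt f → Cpt g → ⁅f, g⁆ ∈ Δ.map (commutator F).subtype := by
    intro f g hf hg
    obtain ⟨f', hf', g', hg', e⟩ := cpt_comm hf hg
    rw [e]
    exact all_comm hB hne' f' g' hf' hg'
  have htop : commutator F ≤ Δ.map (commutator F).subtype := by
    conv_lhs => rw [commutator_def]
    rw [Subgroup.commutator_le]
    intro x _ y _
    exact comm_mem hall x y
  rw [eq_top_iff]
  intro x _
  obtain ⟨hx, h⟩ := (hmem x.1).1 (htop x.2)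
  exact h

end Pool.Agent.Results.MP_80afb3_al.DerivedThompson
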